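import Pool.Agent.MP_cce4c9_lc.H7.BaseA

/-! Independent generic points specialize to arbitrary points; scaling automorphisms. -/

set_option autoImplicit false

open WithZero Finsupp Module
open scoped IntermediateField

namespace Pool.Agent.MP_cce4c9_lc.H88

open Pool.Agent.MP_cce4c9_lc.H87 Pool.Agent.MP_cce4c9_lc.H7

variable {k K Ω : Type} [Field k] [Field K] [Algebra k K] [Field Ω] [Algebra k Ω]

/-- A finite family over which an independent family of the same size is algebraic is itself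
independent. -/
theorem indep_of_alg {n : ℕ} {x y : Fin n → Ω} (hx : AlgebraicIndependent k x)
    (h : ∀ j, IsAlgebraic (Algebra.adjoin k (Set.range y)) (x j)) : AlgebraicIndependent k y := by
  let M := AlgebraicIndependent.matroid k Ω
  have h1 : M.Indep (Set.range x) :=
    AlgebraicIndependent.matroid_indep_iff.2
      ((algebraicIndependent_subtype_range hx.injective).2 hx)
  have h2 : Set.range x ⊆ M.closure (Set.range y) := by
    rintro _ ⟨j, rfl⟩
    rw [AlgebraicIndependent.matroid_closure_eq]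
    exact h j
  have h3 : (Set.univ : Set (Fin n)).encard ≤ M.eRk (Set.range y) := by
    rw [← M.eRk_closure_eq, ← hx.injective.injOn.encard_image, Set.image_univ,
      ← h1.eRk_eq_encard]
    exact M.eRk_mono h2
  have h4 : (Set.range y).encard ≤ (Set.univ : Set (Fin n)).encard := by
    rw [← Set.image_univ]
    exact Set.encard_image_le _ _
  have h5 := M.eRk_le_encard (Set.range y)
  have h6 : M.Indep (Set.range y) :=
    (Matroid.indep_iff_eRk_eq_encard_of_finite (Set.finite_range y)).2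
      (le_antisymm h5 (h4.trans h3))
  have h7 : Function.Injective y := by
    rw [← Set.injOn_univ]
    refine Set.finite_univ.injOn_of_encard_image_eq ?_
    rw [Set.image_univ]
    exact le_antisymm h4 (h3.trans h5)
  exact (algebraicIndependent_subtype_range h7).1 (AlgebraicIndependent.matroid_indep_iff.1 h6)

/-- A function whose only zero is a given place. -/
theorem exists_only [IsAlgClosed k] (hR : StmtRI) (hK : IsFF k K) (z : Place k K) :
    ∃ s : K, s ∉ Set.range (algebraMap k K) ∧ ∀ x : Place k K, 1 < x.val s⁻¹ → x = z := by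
  classical
  obtain ⟨γ, hγ⟩ := (hR k K hK).1
  have h1 := hγ (single z (γ + 1))
  rw [degree_single] at h1
  have h2 : ∃ h ∈ LL (single z ((γ : ℤ) + 1)), h ∉ Set.range (algebraMap k K) := by
    by_contra hc
    push Not at hc
    have h3 : LL (single z ((γ : ℤ) + 1)) ≤ Submodule.span k {(1 : K)} := fun h hh => by
      obtain ⟨c, rfl⟩ := hc h hh
      exact Submodule.mem_span_singleton.2 ⟨c, (Algebra.algebraMap_eq_smul_one c).symm⟩
    have h4 := Submodule.finrank_mono h3
    rw [finrank_span_singleton one_ne_zero] at h4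
    omega
  obtain ⟨h, hh, hn⟩ := h2
  refine ⟨h⁻¹, ?_, fun x hx => ?_⟩
  · rintro ⟨c, hc⟩
    exact hn ⟨c⁻¹, by rw [map_inv₀, hc, inv_inv]⟩
  · by_contra hne
    have := hh x
    rw [single_eq_of_ne hne, exp_zero] at this
    rw [inv_inv] at hx
    exact absurd hx (not_lt.2 this)

/-- The pull back of a place along an embedding. -/
theorem pull [IsAlgClosed k] (hD : StmtDVR) (hK : IsFF k K) (P : KP k Ω) (η : K →ₐ[k] Ω)
    {z : Place k K} {s : K} (hs : s ≠ 0) (hz : ∀ x : Place k K, 1 < x.val s⁻¹ → x = z)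
    (h0 : P.Rd (η s) 0) (h : K) (hh : z.val h ≤ 1) : P.Rd (η h) (z.ev h) := by
  obtain ⟨hm, h0⟩ := h0
  have h1 : (η s)⁻¹ ∉ P.O := by
    have h2 := (P.ker _).1 h0
    rw [← ValuationSubring.valuation_le_one_iff, map_inv₀, not_le]
    exact (one_lt_inv₀ (zero_lt_iff.2 (by simpa using hs))).2 h2
  obtain ⟨x, hx⟩ := hD k K hK (P.O.comap η.toRingHom)
    (fun c => by
      show η (algebraMap k K c) ∈ P.O
      rw [η.commutes]
      exact P.mem c)
    (fun e => h1 (by
      have : s⁻¹ ∈ P.O.comap η.toRingHom := by rw [e]; trivial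
      rw [← map_inv₀]
      exact this))
  have hx' : ∀ g : K, η g ∈ P.O ↔ x.val g ≤ 1 := hx
  obtain rfl : x = z := hz x (by rw [← not_le, ← hx', map_inv₀]; exact h1)
  have h3 := (res hK x).ev_spec hh
  have h4 : η h ∈ P.O := (hx' h).2 hh
  have h5 : η (h - algebraMap k K (x.ev h)) ∈ P.O := (hx' _).2 h3.le
  have h6 : P.ρ ⟨_, h5⟩ = 0 := by
    rw [P.ker]
    by_cases e : h - algebraMap k K (x.ev h) = 0
    · simp [e]
    · have h7 : (η (h - algebraMap k K (x.ev h)))⁻¹ ∉ P.O := by
        rw [← map_inv₀, hx', map_inv₀, not_le]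
        exact (one_lt_inv₀ (zero_lt_iff.2 (x.val_ne e))).2 h3
      rw [← ValuationSubring.valuation_le_one_iff, map_inv₀, not_le] at h7
      exact (one_lt_inv₀ (zero_lt_iff.2 ((map_ne_zero _).2 ((map_ne_zero η).2 e)))).1 h7
  refine ⟨h4, ?_⟩
  have h8 : (⟨_, h5⟩ : P.O) = ⟨_, h4⟩ - ⟨_, P.mem (x.ev h)⟩ := Subtype.ext (by simp)
  rw [h8, map_sub, P.const, sub_eq_zero] at h6
  exact h6

theorem alg_image [IsAlgClosed k] (hK : IsFF k K) (η : K →ₐ[k] Ω) {s : K}
    (hs : s ∉ Set.range (algebraMap k K)) (t : K) {S : Set Ω} (hS : η s ∈ S) :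
    IsAlgebraic (Algebra.adjoin k S) (η t) := by
  have := hK.fd hs
  have h1 : IsAlgebraic (Algebra.adjoin k ({s} : Set K)) t :=
    IntermediateField.isAlgebraic_adjoin_iff.1 (Algebra.IsAlgebraic.isAlgebraic (R := k⟮s⟯) t)
  have h2 : ∀ y : Algebra.adjoin k ({s} : Set K), η y ∈ Algebra.adjoin k S := fun y => by
    have h3 : Algebra.adjoin k ({s} : Set K) ≤ (Algebra.adjoin k S).comap η :=
      Algebra.adjoin_le (by
        rintro _ rfl
        exact Algebra.subset_adjoin hS)
    exact h3 y.2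
  let f : Algebra.adjoin k ({s} : Set K) →+* Algebra.adjoin k S :=
    (η.toRingHom.comp (Algebra.adjoin k ({s} : Set K)).val.toRingHom).codRestrict _ h2
  exact h1.ringHom_of_comp_eq f η.toRingHom
    (fun a b e => Subtype.ext (η.toRingHom.injective (congrArg Subtype.val e))) rfl

theorem spec1 [IsAlgClosed k] (hD : StmtDVR) (hR : StmtRI) (hC : StmtCHEV) (hK : IsFF k K)
    (t : K) (n : ℕ) (η : Fin n → K →ₐ[k] Ω) (z : Fin n → Place k K)
    (ht : AlgebraicIndependent k fun j => η j t) :
    ∃ P : KP k Ω, ∀ j h, (z j).val h ≤ 1 → P.Rd (η j h) ((z j).ev h) := by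
  choose s hs hz using fun j => exists_only hR hK (z j)
  have h1 : AlgebraicIndependent k fun j => η j (s j) :=
    indep_of_alg ht fun j => alg_image hK (η j) (hs j) t ⟨j, rfl⟩
  let φ : MvPolynomial (Fin n) k →ₐ[k] Ω × k :=
    (MvPolynomial.aeval fun j => η j (s j)).prod (MvPolynomial.aeval fun _ => 0)
  obtain ⟨P, hP⟩ := hC k Ω φ.toRingHom.range
    (fun c => ⟨MvPolynomial.C c, φ.commutes c⟩)
    (by
      rintro c ⟨p, hp⟩
      have h2 : MvPolynomial.aeval (fun j => η j (s j)) p = 0 := congrArg Prod.fst hp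
      have h3 : p = 0 := h1 (h2.trans (map_zero _).symm)
      rw [h3, map_zero] at hp
      exact (congrArg Prod.snd hp).symm)
  refine ⟨P, fun j => pull hD hK P (η j) (fun e => hs j ⟨0, by simp [e]⟩) (hz j) ?_⟩
  have := hP _ ⟨MvPolynomial.X j, rfl⟩
  simpa [φ] using this

theorem scale [IsAlgClosed Ω] {N : Type} [Field N] [Algebra N Ω] {c : Ω} (hc : Transcendental N c)
    {a : N} (ha : a ≠ 0) :
    ∃ τ : Ω ≃+* Ω, (∀ x : N, τ (algebraMap N Ω x) = algebraMap N Ω x) ∧
      τ c = algebraMap N Ω a * c := by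
  obtain ⟨B, hB, hs⟩ := exists_isTranscendenceBasis_superset (R := N) (s := {c})
    (algebraicIndependent_unique_type_iff.2 hc)
  let := IsAlgClosed.isAlgClosure_of_transcendence_basis _ hs
  let sc : MvPolynomial B N ≃ₐ[N] MvPolynomial B N :=
    AlgEquiv.ofAlgHom (MvPolynomial.aeval fun b => MvPolynomial.C a * MvPolynomial.X b)
      (MvPolynomial.aeval fun b => MvPolynomial.C a⁻¹ * MvPolynomial.X b)
      (by
        refine MvPolynomial.algHom_ext fun b => ?_
        simp only [AlgHom.comp_apply, MvPolynomial.aeval_X, map_mul, MvPolynomial.aeval_C,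
          MvPolynomial.algebraMap_eq, AlgHom.id_apply]
        rw [← mul_assoc, ← map_mul]
        simp [ha])
      (by
        refine MvPolynomial.algHom_ext fun b => ?_
        simp only [AlgHom.comp_apply, MvPolynomial.aeval_X, map_mul, MvPolynomial.aeval_C,
          MvPolynomial.algebraMap_eq, AlgHom.id_apply]
        rw [← mul_assoc, ← map_mul]
        simp [ha])
  let e := hs.1.aevalEquiv.symm.trans (sc.trans hs.1.aevalEquiv)
  have key : ∀ p : MvPolynomial B N,
      IsAlgClosure.equivOfEquiv Ω Ω e.toRingEquiv (MvPolynomial.aeval ((↑) : B → Ω) p) =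
        MvPolynomial.aeval ((↑) : B → Ω) (sc p) := fun p => by
    rw [← hs.1.algebraMap_aevalEquiv, IsAlgClosure.equivOfEquiv_algebraMap,
      ← hs.1.algebraMap_aevalEquiv]
    simp [e]
  refine ⟨IsAlgClosure.equivOfEquiv Ω Ω e.toRingEquiv, fun x => ?_, ?_⟩
  · simpa [sc] using key (MvPolynomial.C x)
  · simpa [sc] using key (MvPolynomial.X ⟨c, hB rfl⟩)

theorem spec2 [IsAlgClosed Ω] (N : IntermediateField k Ω) (c : Ω) (a : k)
    (hc : Transcendental N c) (ha : a ≠ 0) :
    ∃ τ : Ω ≃ₐ[k] Ω, (∀ x, IsAlgebraic N x → τ x = x) ∧ τ c = algebraMap k Ω a * c := by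
  have hm : ∀ b : k, algebraMap k Ω b ∈ algebraicClosure N Ω := fun b =>
    mem_algebraicClosure_iff.2 (isAlgebraic_algebraMap (⟨_, N.algebraMap_mem b⟩ : N))
  obtain ⟨τ, h1, h2⟩ := scale hc.algebraicClosure (a := ⟨_, hm a⟩)
    (fun e => ha ((map_eq_zero _).1 (congrArg Subtype.val e)))
  exact ⟨AlgEquiv.ofRingEquiv (f := τ) fun b => h1 ⟨_, hm b⟩,
    fun x hx => h1 ⟨x, mem_algebraicClosure_iff.2 hx⟩, h2⟩

/-- Specialization of independent generic points, and scaling automorphisms. -/
theorem spec (hD : StmtDVR) (hR : StmtRI) (hC : StmtCHEV) : StmtSPEC :=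
  fun _ _ _ _ _ _ _ _ _ _ hK => ⟨spec1 hD hR hC hK, spec2⟩

end Pool.Agent.MP_cce4c9_lc.H88
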